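import Pool.Agent.H21.FTM.MSaux
import Pool.Agent.H64.EV.LOO

/-!
# Row MSE: the adapted basis in even dimension
-/

set_option autoImplicit false

open Matrix Pool.Agent.H64.CC Pool.Agent.H2.NL Pool.Agent.H2.KM Pool.Agent.H64.EV Pool.Agent.H64.FTM
open Pool.Agent.H64.EK hiding kap
open Pool.Agent.H64.NLW (van)

namespace Pool.Agent.H21.FTM

theorem pf_MSE (hVAO : T_VAO) (hADO : T_ADO) (hSYO : T_SYO) (hTRF : T_TRF) (hPFA : T_PFA)
    (hPFB : T_PFB) (hNNX : T_NNX) (hADE : T_ADE) : T_MSE := by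
  intro K _ _ W hW V L hL r m T S ε hε hεε hεadj hεV hεmax
  obtain ⟨-, -, h3, -⟩ := hVAO K W hW V L hL r m T S
  have hρ : (1 : W.Hom T T) - ε ∈ W.cyc T T 0 :=
    (W.cyc T T 0).sub_mem (hW.calculus.one_mem T) hε
  have hρρ : ((1 : W.Hom T T) - ε) * (1 - ε) = 1 - ε := by
    rw [mul_sub, mul_one, sub_mul, one_mul, hεε, sub_self, sub_zero]
  have hρadj : ((1 : W.Hom T T) - ε)ᵀ * S.powers.form = S.powers.form * (1 - ε) := by
    rw [Matrix.transpose_sub, Matrix.transpose_one, sub_mul, one_mul, hεadj, mul_sub, mul_one]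
  have hdeg : ∀ f ∈ W.cyc T T 0, ∀ a b, f a b ≠ 0 → W.deg T a = W.deg T b := by
    intro f hf a b hab
    have h := hW.calculus.cyc_deg T T 0 _ hf a b hab
    omega
  have hρU : ∀ u ∈ van S.toGenericIntersection, ((1 : W.Hom T T) - ε) *ᵥ u = u := by
    intro u hu
    have h := hεV u hu
    have h' : ε *ᵥ u = 0 := h
    rw [Matrix.sub_mulVec, Matrix.one_mulVec, h', sub_zero]
  obtain ⟨n, n', ⟨D⟩⟩ := hADO K (W.rk T) (W.deg T) (W.dim T) S.powers.form (1 - ε) S.even
    S.powers.form_deg S.powers.form_symm S.powers.form_unit hρρ hρadj (hdeg _ hρ)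
    (van S.toGenericIntersection) (fun u hu => hu.1) hρU (fun u hu hv => h3 u hu hv)
  have hsys := hSYO K W hW V L hL r m T S ε hε hεε hεadj hεV hεmax
    (van S.toGenericIntersection) (fun u => Iff.rfl) n n' D
  obtain ⟨n'', jE, iE, dg, G, h4, h5, -, h6, d1, d2, d3⟩ := hADE K (W.rk T) (W.deg T) (W.dim T)
    S.powers.form ε S.powers.form_deg S.powers.form_symm S.powers.form_unit hεε hεadj (hdeg _ hε)
  have p1 : ∀ a b, D.j a b ≠ 0 → W.par T a = D.F.o b := by
    intro a b hab
    rw [D.o_eq b, ← D.j_deg a b hab]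
    rfl
  have p2 : ∀ b a, D.i b a ≠ 0 → D.F.o b = W.par T a := by
    intro b a hab
    rw [D.o_eq b, D.i_deg b a hab]
    rfl
  have p3 : ∀ a b, jE a b ≠ 0 → W.par T a = G.o b := by
    intro a b hab
    rw [d3 b, ← d1 a b hab]
    rfl
  have p4 : ∀ b a, iE b a ≠ 0 → G.o b = W.par T a := by
    intro b a hab
    rw [d3 b, d2 b a hab]
    rfl
  have hstr : W.str (1 - ε) = D.F.sd :=
    (hNNX K W hW m T S.powers (1 - ε) hρ hρρ (van S.toGenericIntersection) n n' D).1
  have hbas := basis_of hTRF hPFA W S.powers ε hρ hεε D.F G D.j D.i jE iE D.ij D.ji D.form_i h4 h5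
    h6 p1 p2 p3 p4 hstr
  refine ⟨n, n', n'', D.F, G, Matrix.fromCols D.j jE, Matrix.fromRows D.i iE, hbas, ?_, ?_⟩
  · rw [AR_pull]
    exact hsys
  · intro p q k t ht w hw
    have hvan : ∀ p, W.Vanishing S.toGenericIntersection (fun a => D.j a (Sum.inl p)) :=
      fun p => D.mem_U p
    obtain ⟨u, hu⟩ : ∃ u : W.H T, u = fun a => D.j a (Sum.inl p) := ⟨_, rfl⟩
    obtain ⟨v, hv⟩ : ∃ v : W.H T, v = fun a => D.j a (Sum.inl q) := ⟨_, rfl⟩
    have huV : W.Vanishing S.toGenericIntersection u := by rw [hu]; exact hvan p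
    have hvV : W.Vanishing S.toGenericIntersection v := by rw [hv]; exact hvan q
    obtain ⟨B, hB⟩ : ∃ B : W.Hom T T, B = Matrix.of fun a b =>
      u a * ∑ c, v c * S.powers.form c b - v a * ∑ c, u c * S.powers.form c b := ⟨_, rfl⟩
    have hBz : ∀ w', w'.length = 2 * k → der B (pf (Matrix.fromCols D.j jE) t) w' = 0 := by
      intro w' hw'
      rw [hB]
      exact S.monodromy u v huV hvV k (pf (Matrix.fromCols D.j jE) t) ht w' hw'
    have hB1 : B * D.j = D.j * D.F.T (Sum.inl p) (Sum.inl q) := by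
      ext a y
      have h1 : ∀ x, ∑ b, (∑ c, D.j c x * S.powers.form c b) * D.j b y = D.F.η x y := by
        intro x
        rw [← D.form]
        rfl
      have h2 : (B * D.j) a y = u a * D.F.η (Sum.inl q) y - v a * D.F.η (Sum.inl p) y := by
        rw [← h1 (Sum.inl q), ← h1 (Sum.inl p), Matrix.mul_apply, hB, Finset.mul_sum,
          Finset.mul_sum, ← Finset.sum_sub_distrib]
        refine Finset.sum_congr rfl fun b _ => ?_
        rw [Matrix.of_apply, hu, hv]
        ring
      rw [h2, Matrix.mul_apply]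
      unfold OForm.T
      simp only [Matrix.of_apply, mul_sub, Finset.sum_sub_distrib, mul_ite, mul_zero,
        Finset.sum_ite_eq', Finset.mem_univ, if_true]
      rw [hu, hv]
    have hRE : D.i * jE = 0 := by
      have h := hbas.ij
      rw [Matrix.fromRows_mul_fromCols] at h
      have h' := congrArg Matrix.toBlocks₁₂ h
      rw [Matrix.toBlocks_fromBlocks₁₂] at h'
      rw [h']
      ext a b
      show (1 : Matrix ((Fin n ⊕ Fin n') ⊕ Fin n'') ((Fin n ⊕ Fin n') ⊕ Fin n'') K)
        (Sum.inl a) (Sum.inr b) = 0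
      exact Matrix.one_apply_ne Sum.inl_ne_inr
    have hB2 : B * jE = 0 := by
      ext a y
      have h1 : ∀ x, ∑ b, (∑ c, D.j c x * S.powers.form c b) * jE b y = 0 := by
        intro x
        have e1 : D.jᵀ * S.powers.form * jE = 0 := by
          rw [D.form_i, Matrix.mul_assoc, hRE, Matrix.mul_zero]
        exact congrFun (congrFun e1 x) y
      have h2 : (B * jE) a y = u a * 0 - v a * 0 := by
        rw [Matrix.mul_apply, hB]
        conv_rhs => rw [← h1 (Sum.inl q), Finset.mul_sum]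
        conv_rhs =>
          arg 2
          rw [h1 (Sum.inl q), ← h1 (Sum.inl p), Finset.mul_sum]
        rw [← Finset.sum_sub_distrib]
        refine Finset.sum_congr rfl fun b _ => ?_
        rw [Matrix.of_apply, hu, hv]
        ring
      rw [h2, mul_zero, mul_zero, sub_zero]
      rfl
    exact der_of hPFA hPFB W D.F G D.j jE _ hbas.ij hbas.j_par B _ hB1 hB2 k t hBz w hw

end Pool.Agent.H21.FTM
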