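import Pool.Agent.H64.FTM.Targets2

/-!
# Rows MSE and MSO: the common part
-/

set_option autoImplicit false

open Matrix Pool.Agent.H64.CC Pool.Agent.H2.NL Pool.Agent.H2.KM Pool.Agent.H64.EV Pool.Agent.H64.FTM
open Pool.Agent.H64.EK hiding kap

namespace Pool.Agent.H21.FTM

section aux

variable {K : Type} [Field K]

theorem pf_zero {I J : Type} [Fintype J] (j : Matrix I J K) :
    ∀ (w : List I) (t : List J → K), (∀ v : List J, v.length = w.length → t v = 0) →
      pf j t w = 0
  | [], t, h => h [] rfl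
  | a :: w, t, h => by
    show ∑ b, j a b * pf j (fun l => t (b :: l)) w = 0
    refine Finset.sum_eq_zero fun b _ => ?_
    rw [pf_zero j w (fun l => t (b :: l)) fun v hv => h (b :: v) (by simp [hv]), mul_zero]

theorem der_add1 {I : Type} [Fintype I] (T1 T2 : Matrix I I K) :
    ∀ (w : List I) (t : List I → K), der (T1 + T2) t w = der T1 t w + der T2 t w
  | [], t => by
    show (0 : K) = 0 + 0
    rw [add_zero]
  | a :: l, t => by
    show ∑ b, (T1 + T2) a b * t (b :: l) + der (T1 + T2) (fun l' => t (a :: l')) l =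
      (∑ b, T1 a b * t (b :: l) + der T1 (fun l' => t (a :: l')) l) +
      (∑ b, T2 a b * t (b :: l) + der T2 (fun l' => t (a :: l')) l)
    rw [der_add1 T1 T2 l]
    simp only [Matrix.add_apply, add_mul, Finset.sum_add_distrib]
    ring

theorem ext_nil {J E : Type} (t : List J → K) : ext E t [] = t [] := if_pos rfl

theorem ext_inl {J E : Type} (t : List J → K) (a : J) (w : List (J ⊕ E)) :
    ext E t (Sum.inl a :: w) = ext E (fun l => t (a :: l)) w := by
  unfold Pool.Agent.H64.FTM.ext
  by_cases h : w.all Sum.isLeft = true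
  · rw [if_pos h, if_pos]
    · rfl
    · rw [List.all_cons, h]
      rfl
  · rw [if_neg h, if_neg]
    rw [List.all_cons]
    intro h'
    exact h h'

theorem ext_inr {J E : Type} (t : List J → K) (e : E) (w : List (J ⊕ E)) :
    ext E t (Sum.inr e :: w) = 0 := by
  unfold Pool.Agent.H64.FTM.ext
  rw [if_neg]
  rw [List.all_cons]
  intro h
  exact Bool.false_ne_true h

theorem pf_ext {I J E : Type} [Fintype J] [Fintype E] (j1 : Matrix I J K) (j2 : Matrix I E K) :
    ∀ (w : List I) (t : List J → K), pf (Matrix.fromCols j1 j2) (ext E t) w = pf j1 t w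
  | [], t => ext_nil t
  | a :: w, t => by
    show ∑ b, Matrix.fromCols j1 j2 a b * pf (Matrix.fromCols j1 j2) (fun l => ext E t (b :: l)) w =
      ∑ b, j1 a b * pf j1 (fun l => t (b :: l)) w
    rw [Fintype.sum_sum_type]
    have h2 : ∑ e, Matrix.fromCols j1 j2 a (Sum.inr e) *
        pf (Matrix.fromCols j1 j2) (fun l => ext E t (Sum.inr e :: l)) w = 0 := by
      refine Finset.sum_eq_zero fun e _ => ?_
      rw [pf_zero (Matrix.fromCols j1 j2) w _ fun v _ => ext_inr t e v, mul_zero]
    rw [h2, add_zero]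
    refine Finset.sum_congr rfl fun b _ => ?_
    have h3 : (fun l => ext E t (Sum.inl b :: l)) = ext E (fun l => t (b :: l)) := by
      funext l
      exact ext_inl t b l
    rw [h3, pf_ext j1 j2 w, Matrix.fromCols_apply_inl]

theorem AR_pull [CharZero K] {I J E : Type} [Fintype J] [Fintype E]
    (j1 : Matrix I J K) (j2 : Matrix I E K) (A : ℕ → Submodule ℚ (List I → K)) :
    AR (pull (Matrix.fromCols j1 j2) A) = pull j1 A := by
  funext k
  ext t
  show pf (Matrix.fromCols j1 j2) (ext E t) ∈ A k ↔ pf j1 t ∈ A k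
  have h : pf (Matrix.fromCols j1 j2) (ext E t) = pf j1 t := by
    funext w
    exact pf_ext j1 j2 w t
  rw [h]

theorem sum_vec1 {I : Type} [Fintype I] (g : List I → K) :
    ∑ v : List.Vector I 1, g v.1 = ∑ c, g [c] := by
  let e : I ≃ List.Vector I 1 := {
    toFun := fun c => ⟨[c], rfl⟩
    invFun := fun v => v.head
    left_inv := fun c => rfl
    right_inv := fun v => by
      match v with
      | ⟨[a], _⟩ => rfl }
  exact (Equiv.sum_comp e (fun v => g v.1)).symm

theorem osum_eta {J E : Type} [Fintype J] [DecidableEq J] [Fintype E] [DecidableEq E]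
    (F : OForm K J) (G : OForm K E) : (osum F G).η = Matrix.fromBlocks F.η 0 0 G.η := by
  ext a b
  rcases a with a | a <;> rcases b with b | b
  · show (if (Sum.inl b : J ⊕ E) = Sum.inl (F.st a) then F.c a else 0) = if b = F.st a then F.c a else 0
    simp only [Sum.inl.injEq]
  · show (if (Sum.inr b : J ⊕ E) = Sum.inl (F.st a) then F.c a else 0) = 0
    rw [if_neg]
    intro h
    cases h
  · show (if (Sum.inl b : J ⊕ E) = Sum.inr (G.st a) then G.c a else 0) = 0
    rw [if_neg]
    intro h
    cases h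
  · show (if (Sum.inr b : J ⊕ E) = Sum.inr (G.st a) then G.c a else 0) = if b = G.st a then G.c a else 0
    simp only [Sum.inr.injEq]

end aux

theorem basis_of {K : Type} [Field K] [CharZero K] (hTRF : T_TRF) (hPFA : T_PFA) (W : Weil K)
    {m : ℕ} {T : W.Var m} (P : W.Powers T) (ε : W.Hom T T)
    (hρ : (1 : W.Hom T T) - ε ∈ W.cyc T T 0) (hεε : ε * ε = ε)
    {J E : Type} [Fintype J] [DecidableEq J] [Fintype E] [DecidableEq E] (F : OForm K J)
    (G : OForm K E) (jR : Matrix (Fin (W.rk T)) J K) (iR : Matrix J (Fin (W.rk T)) K)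
    (jE : Matrix (Fin (W.rk T)) E K) (iE : Matrix E (Fin (W.rk T)) K)
    (h1 : iR * jR = 1) (h2 : jR * iR = 1 - ε) (h3 : jRᵀ * P.form = F.η * iR)
    (h4 : iE * jE = 1) (h5 : jE * iE = ε) (h6 : jEᵀ * P.form = G.η * iE)
    (p1 : ∀ a b, jR a b ≠ 0 → W.par T a = F.o b) (p2 : ∀ b a, iR b a ≠ 0 → F.o b = W.par T a)
    (p3 : ∀ a b, jE a b ≠ 0 → W.par T a = G.o b) (p4 : ∀ b a, iE b a ≠ 0 → G.o b = W.par T a)
    (hstr : W.str (1 - ε) = F.sd) :
    Basis W P ε F G (Matrix.fromCols jR jE) (Matrix.fromRows iR iE) := by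
  have hρε : ((1 : W.Hom T T) - ε) * ε = 0 := by
    rw [sub_mul, one_mul, hεε, sub_self]
  have hερ : ε * ((1 : W.Hom T T) - ε) = 0 := by
    rw [mul_sub, mul_one, hεε, sub_self]
  have hRE : iR * jE = 0 := by
    calc iR * jE = (iR * jR * iR) * (jE * iE * jE) := by
          rw [h1, Matrix.one_mul, Matrix.mul_assoc jE, h4, Matrix.mul_one]
      _ = iR * ((jR * iR) * (jE * iE)) * jE := by simp only [Matrix.mul_assoc]
      _ = 0 := by
          rw [h2, h5]
          rw [show ((1 : Matrix (Fin (W.rk T)) (Fin (W.rk T)) K) - ε) * ε = 0 from hρε,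
            Matrix.mul_zero, Matrix.zero_mul]
  have hER : iE * jR = 0 := by
    calc iE * jR = (iE * jE * iE) * (jR * iR * jR) := by
          rw [h4, Matrix.one_mul, Matrix.mul_assoc jR, h1, Matrix.mul_one]
      _ = iE * ((jE * iE) * (jR * iR)) * jR := by simp only [Matrix.mul_assoc]
      _ = 0 := by
          rw [h2, h5]
          rw [show ε * ((1 : Matrix (Fin (W.rk T)) (Fin (W.rk T)) K) - ε) = 0 from hερ,
            Matrix.mul_zero, Matrix.zero_mul]
  have hij : Matrix.fromRows iR iE * Matrix.fromCols jR jE = 1 := by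
    rw [Matrix.fromRows_mul_fromCols, h1, h4, hRE, hER, Matrix.fromBlocks_one]
  have hji : Matrix.fromCols jR jE * Matrix.fromRows iR iE = 1 := by
    rw [Matrix.fromCols_mul_fromRows, h2, h5]
    exact sub_add_cancel _ _
  have hform : (Matrix.fromCols jR jE)ᵀ * P.form = (osum F G).η * Matrix.fromRows iR iE := by
    rw [Matrix.transpose_fromCols, Matrix.fromRows_mul, h3, h6, osum_eta,
      Matrix.fromBlocks_mul_fromRows, Matrix.zero_mul, Matrix.zero_mul, add_zero, zero_add]
  have hdet : IsUnit P.form.det := (Matrix.isUnit_iff_isUnit_det _).1 P.form_unit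
  have hinv : ∀ X Y : Matrix (Fin (W.rk T)) (Fin (W.rk T)) K, X * P.form = Y → X = Y * P.form⁻¹ := by
    intro X Y h
    rw [← h, Matrix.mul_assoc, Matrix.mul_nonsing_inv _ hdet, Matrix.mul_one]
  have hom : Matrix.fromCols jR jE * (osum F G).ω * (Matrix.fromCols jR jE)ᵀ = P.form⁻¹ := by
    have h := hinv _ 1 (show (Matrix.fromCols jR jE * (osum F G).ω * (Matrix.fromCols jR jE)ᵀ) *
      P.form = 1 by
        rw [Matrix.mul_assoc, hform, Matrix.mul_assoc, ← Matrix.mul_assoc (osum F G).ω,
          OForm.ω_mul_η, Matrix.one_mul, hji])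
    rw [h, Matrix.one_mul]
  have homR : Matrix.fromCols jR jE * Om F E * (Matrix.fromCols jR jE)ᵀ = (1 - ε) * P.form⁻¹ := by
    refine hinv _ _ ?_
    rw [Matrix.mul_assoc, hform, Matrix.mul_assoc, ← Matrix.mul_assoc (Om F E), osum_eta]
    unfold Om
    rw [Matrix.fromBlocks_multiply, Matrix.fromBlocks_mul_fromRows, OForm.ω_mul_η]
    simp only [Matrix.zero_mul, Matrix.mul_zero, add_zero, Matrix.one_mul]
    rw [Matrix.fromCols_mul_fromRows, Matrix.mul_zero, add_zero, h2]
  have hproj : Matrix.fromCols jR jE * Matrix.fromBlocks (0 : Matrix J J K) 0 0 (1 : Matrix E E K) *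
      Matrix.fromRows iR iE = ε := by
    rw [Matrix.mul_assoc, Matrix.fromBlocks_mul_fromRows, Matrix.zero_mul, Matrix.zero_mul,
      Matrix.zero_mul, Matrix.one_mul, Matrix.fromCols_mul_fromRows, add_zero, zero_add,
      Matrix.mul_zero, zero_add, h5]
  have q1 : ∀ a b, Matrix.fromCols jR jE a b ≠ 0 → W.par T a = (osum F G).o b := by
    intro a b hab
    rcases b with b | b
    · exact p1 a b hab
    · exact p3 a b hab
  have q2 : ∀ b a, Matrix.fromRows iR iE b a ≠ 0 → (osum F G).o b = W.par T a := by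
    intro b a hab
    rcases b with b | b
    · exact p2 b a hab
    · exact p4 b a hab
  have hη' : (Matrix.fromCols jR jE)ᵀ * P.form * Matrix.fromCols jR jE = (osum F G).η := by
    rw [hform, Matrix.mul_assoc, hij, Matrix.mul_one]
  have hcalc : Calc (osum F G).o (osum F G).η (osum F G).ω
      (pull (Matrix.fromCols jR jE) P.toPowerData.classes) := by
    refine hTRF K (Fin (W.rk T)) (J ⊕ E) (W.par T) P.form P.form⁻¹ P.toPowerData.classes
      (osum F G).o (osum F G).η (osum F G).ω (Matrix.fromCols jR jE) (Matrix.fromRows iR iE)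
      P.calculus q1 q2 hij hη' ?_
    rw [hom]
    exact P.calculus.om
  have h1ε : two ((1 - ε) * P.form⁻¹) ∈ P.toPowerData.classes 1 := by
    obtain ⟨t, ht, hft⟩ := (P.graph_one (1 - ε)).1 hρ
    refine P.calculus.congr 1 t _ ht ?_
    intro w hw
    have e1 : (1 : W.Hom T T) - ε = (Matrix.of fun a c => t [a, c]) * P.form := by
      rw [hft]
      ext a b
      rw [Matrix.mul_apply]
      show opw P.form 1 t [a] [b] = _
      unfold opw
      rw [sum_vec1 (fun v => t ([a] ++ v) *
        (List.zipWith (fun a b => P.form a b) v.reverse [b]).prod)]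
      refine Finset.sum_congr rfl fun c _ => ?_
      show t [a, c] * (List.zipWith (fun a b => P.form a b) [c] [b]).prod = t [a, c] * P.form c b
      rw [List.zipWith_cons_cons, List.zipWith_nil_left, List.prod_cons, List.prod_nil, mul_one]
    have e2 : ((1 : W.Hom T T) - ε) * P.form⁻¹ = Matrix.of fun a c => t [a, c] := by
      rw [e1, Matrix.mul_assoc, Matrix.mul_nonsing_inv _ hdet, Matrix.mul_one]
    match w, hw with
    | [a, b], _ =>
      show (((1 : W.Hom T T) - ε) * P.form⁻¹) a b = t [a, b]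
      rw [e2]
      rfl
  have homR' : two (Om F E) ∈ pull (Matrix.fromCols jR jE) P.toPowerData.classes 1 := by
    show pf (Matrix.fromCols jR jE) (two (Om F E)) ∈ P.toPowerData.classes 1
    obtain ⟨-, -, -, h, -⟩ := hPFA K _ _ (Matrix.fromCols jR jE) (W.par T) (osum F G).o q1
    rw [h, homR]
    exact h1ε
  exact {
    ij := hij
    ji := hji
    form := hform
    om := hom
    omR := homR
    proj := hproj
    j_par := q1
    i_par := q2
    mcal := ⟨hcalc, homR'⟩
    str := hstr }

/-- the derivations -/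
theorem der_of {K : Type} [Field K] [CharZero K] (hPFA : T_PFA) (hPFB : T_PFB) (W : Weil K)
    {m : ℕ} {T : W.Var m} {J E : Type} [Fintype J] [DecidableEq J] [Fintype E]
    [DecidableEq E] (F : OForm K J)
    (G : OForm K E) (jR : Matrix (Fin (W.rk T)) J K) (jE : Matrix (Fin (W.rk T)) E K)
    (i : Matrix (J ⊕ E) (Fin (W.rk T)) K) (hij : i * Matrix.fromCols jR jE = 1)
    (q1 : ∀ a b, Matrix.fromCols jR jE a b ≠ 0 → W.par T a = (osum F G).o b)
    (B : W.Hom T T) (X : Matrix J J K) (hB1 : B * jR = jR * X) (hB2 : B * jE = 0) (k : ℕ)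
    (t : List (J ⊕ E) → K)
    (hBz : ∀ w', w'.length = 2 * k → der B (pf (Matrix.fromCols jR jE) t) w' = 0)
    (w : List (J ⊕ E)) (hw : w.length = 2 * k) :
    der (Matrix.fromBlocks X 0 0 (0 : Matrix E E K)) t w = 0 := by
  obtain ⟨-, -, -, -, hder⟩ := hPFA K _ _ (Matrix.fromCols jR jE) (W.par T) (osum F G).o q1
  have hBj : B * Matrix.fromCols jR jE = Matrix.fromCols jR jE *
      Matrix.fromBlocks X 0 0 (0 : Matrix E E K) := by
    rw [Matrix.mul_fromCols, hB1, hB2, Matrix.fromCols_mul_fromBlocks, Matrix.mul_zero,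
      Matrix.mul_zero, Matrix.mul_zero, add_zero, add_zero]
  have h3 := hder B _ hBj t
  have h4 : pf i (pf (Matrix.fromCols jR jE)
      (der (Matrix.fromBlocks X 0 0 (0 : Matrix E E K)) t)) w = 0 := by
    refine pf_zero i w _ fun v' hv' => ?_
    rw [← h3]
    exact hBz v' (hv'.trans hw)
  rw [(hPFB K _ _ _ i (Matrix.fromCols jR jE)).1, hij,
    (hPFB K _ _ _ i (Matrix.fromCols jR jE)).2.1] at h4
  exact h4

end Pool.Agent.H21.FTM
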